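import Pool.Agent.MP_c20a26_lc.Sim
import Pool.Agent.MP_c20a26_lc.Mg.RE

set_option autoImplicit false

namespace Pool.Agent.Results.MP_c20a26_lc.Gap

open Pool.Agent.MP_c20a26_lc

/-- The RE-CF gap: for a non-context-free grammar form whose g-grammatical family properly
contains the context-free languages, the family is that of all recursively enumerable languages
(languages compared up to the empty word). -/
theorem result (G : Grammar) (_hG : ¬ G.IsCF)
    (h : FamLE cfFamily (gFamily G) ∧ ¬ FamLE (gFamily G) cfFamily) :
    FamLE (gFamily G) reFamily ∧ FamLE reFamily (gFamily G) := by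
  constructor
  · rintro L ⟨G', μ, -, rfl⟩
    exact ⟨_, re_of_grammar G', rfl⟩
  · intro L hL
    obtain ⟨H, rfl⟩ := grammar_of_re hL
    exact ⟨_, gap_grammar h.2 H, rfl⟩

end Pool.Agent.Results.MP_c20a26_lc.Gap
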